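import Pool.Agent.helper1.SF.SpecA
import Pool.Agent.helper9.SF.K0
import Pool.Agent.helper65.SF.MOB

set_option autoImplicit false

namespace SF

open Pool.Agent.helper72.Sq MeasureTheory Set
open scoped ContDiff

/-- the derivative of `k0` -/
theorem E1I_dXk0 (hPI : PI_stmt) {g : ℝ → ℝ} (hg : Prof g) (s x y : ℝ) (hy : 0 < y) :
    dX (k0 g) s x y = -(1 / Real.pi) *
      (Real.exp s * K0_G g (Real.exp (2 * s) * (x ^ 2 + y ^ 2) / y)) := by
  unfold dX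
  have h1 : (fun t => k0 g s t y) = fun t => -(1 / Real.pi) * K0_K (K0_G g) s t y := by
    funext t; exact K0_k0 g s t y hy
  rw [h1]
  exact ((K0_dX (K0_Gsmooth hPI hg) s x y).const_mul _).deriv

/-- the derivative along the path -/
theorem E1I_der (hPI : PI_stmt) (hK01 : K01_stmt) (hK0 : K0_stmt) (hK1 : K1_stmt) {g : ℝ → ℝ}
    (hg : Prof g) (M s y : ℝ) (hy : 0 < y) :
    dX (k1 g) s (M * y ^ 2 / (5 * (25 + M ^ 2 * y ^ 2))) (y / (25 + M ^ 2 * y ^ 2)) *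
        ((25 - M ^ 2 * y ^ 2) / (25 + M ^ 2 * y ^ 2) ^ 2) +
      dY (k1 g) s (M * y ^ 2 / (5 * (25 + M ^ 2 * y ^ 2))) (y / (25 + M ^ 2 * y ^ 2)) *
        (-(10 * M * y) / (25 + M ^ 2 * y ^ 2) ^ 2) =
      1 / (Real.pi * y ^ 2) * (Real.exp s *
        K0_G g (Real.exp (2 * s) * ((-(M / 5)) ^ 2 + (1 / y) ^ 2) / (1 / y))) := by
  have hn : 0 < 25 + M ^ 2 * y ^ 2 := by positivity
  have hN : ∀ u : ℝ, 0 < (M * u + 5) ^ 2 + (M * y) ^ 2 := by
    intro u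
    by_cases hM : M = 0
    · subst hM; norm_num
    · have : 0 < (M * y) ^ 2 := by positivity
      nlinarith [sq_nonneg (M * u + 5)]
  have hX := MOB_Xx (a := 1 / 5) (b := 0) (c := M) (d := 5) 0 y (hN 0).ne'
  have hY := MOB_Yx (a := 1 / 5) (b := 0) (c := M) (d := 5) 0 y (hN 0).ne'
  have hpos : 0 < (fun t : ℝ => ((1 : ℝ) / 5 * 5 - 0 * M) * y / ((M * t + 5) ^ 2 + (M * y) ^ 2)) 0 := by
    have := hN 0
    simp only
    apply div_pos
    · linarith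
    · exact this
  have hc1 := MOB_chain (hK1 g hg).1 s hX hY hpos
  -- the other side
  have hX2 : HasDerivAt (fun u : ℝ => -(M / 5) - u / (u ^ 2 + y ^ 2)) (-(1 / y ^ 2)) 0 := by
    have h1 : HasDerivAt (fun u : ℝ => u ^ 2 + y ^ 2) 0 (0 : ℝ) := by
      have := (hasDerivAt_pow 2 (0 : ℝ)).add_const (y ^ 2)
      simpa using this
    have h2 := (hasDerivAt_id (0 : ℝ)).div h1 (by positivity)
    have h3 := h2.const_sub (-(M / 5))
    refine h3.congr_deriv ?_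
    simp only [id]
    field_simp
    ring
  have hY2 : HasDerivAt (fun u : ℝ => y / (u ^ 2 + y ^ 2)) 0 0 := by
    have h1 : HasDerivAt (fun u : ℝ => u ^ 2 + y ^ 2) 0 (0 : ℝ) := by
      have := (hasDerivAt_pow 2 (0 : ℝ)).add_const (y ^ 2)
      simpa using this
    have h2 := (hasDerivAt_const (0 : ℝ) y).div h1 (by positivity)
    refine h2.congr_deriv ?_
    simp
  have hpos2 : 0 < (fun u : ℝ => y / (u ^ 2 + y ^ 2)) 0 := by
    simp only
    positivity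
  have hc2 := MOB_chain (hK0 g hg).1 s hX2 hY2 hpos2
  have hfun : (fun u => k1 g s (Xr (1 / 5) 0 M 5 u y)
      (((1 : ℝ) / 5 * 5 - 0 * M) * y / ((M * u + 5) ^ 2 + (M * y) ^ 2))) =
      fun u => k0 g s (-(M / 5) - u / (u ^ 2 + y ^ 2)) (y / (u ^ 2 + y ^ 2)) := by
    funext u
    have hNu := hN u
    have hr : 0 < u ^ 2 + y ^ 2 := by positivity
    have hp : 0 < ((1 : ℝ) / 5 * 5 - 0 * M) * y / ((M * u + 5) ^ 2 + (M * y) ^ 2) := by
      apply div_pos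
      · linarith
      · exact hNu
    rw [hK01 g s _ _ hp]
    obtain ⟨N, hNe⟩ : ∃ N, N = (M * u + 5) ^ 2 + (M * y) ^ 2 := ⟨_, rfl⟩
    have hXr : Xr (1 / 5) 0 M 5 u y = (M * (u ^ 2 + y ^ 2) + 5 * u) / (5 * N) := by
      unfold Xr
      rw [← hNe]
      have hN0 : N ≠ 0 := by rw [hNe]; exact hNu.ne'
      field_simp
      ring
    rw [hXr, ← hNe]
    rw [← hNe] at hNu
    have hN0 : N ≠ 0 := hNu.ne'
    have hr0 : u ^ 2 + y ^ 2 ≠ 0 := hr.ne'
    have hK : (M * (u ^ 2 + y ^ 2) + 5 * u) ^ 2 + 25 * y ^ 2 = (u ^ 2 + y ^ 2) * N := by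
      rw [hNe]; ring
    have e1 : ((M * (u ^ 2 + y ^ 2) + 5 * u) / (5 * N)) ^ 2 +
        (((1 : ℝ) / 5 * 5 - 0 * M) * y / N) ^ 2 =
        (u ^ 2 + y ^ 2) / (25 * N) := by
      have : ((M * (u ^ 2 + y ^ 2) + 5 * u) / (5 * N)) ^ 2 +
        (((1 : ℝ) / 5 * 5 - 0 * M) * y / N) ^ 2 =
        ((M * (u ^ 2 + y ^ 2) + 5 * u) ^ 2 + 25 * y ^ 2) / (25 * N ^ 2) := by
        field_simp
        ring
      rw [this, hK]
      field_simp
    rw [e1]
    obtain ⟨r2, hr2⟩ : ∃ r2, r2 = u ^ 2 + y ^ 2 := ⟨_, rfl⟩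
    rw [← hr2] at hr0 ⊢
    have e2 : -((M * r2 + 5 * u) / (5 * N) / (25 * (r2 / (25 * N)))) = -(M / 5) - u / r2 := by
      field_simp
      ring
    have e3 : ((1 : ℝ) / 5 * 5 - 0 * M) * y / N / (25 * (r2 / (25 * N))) = y / r2 := by
      field_simp
      ring
    rw [e2, e3]
  rw [hfun] at hc1
  have heq := hc1.unique hc2
  have e4 : Xr (1 / 5) 0 M 5 0 y = M * y ^ 2 / (5 * (25 + M ^ 2 * y ^ 2)) := by
    unfold Xr
    have := hn.ne'
    have e : (M * 0 + 5) ^ 2 + (M * y) ^ 2 = 25 + M ^ 2 * y ^ 2 := by ring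
    rw [e]
    field_simp
    ring
  have e5 : ((1 : ℝ) / 5 * 5 - 0 * M) * y / ((M * 0 + 5) ^ 2 + (M * y) ^ 2) =
      y / (25 + M ^ 2 * y ^ 2) := by
    have e : (M * 0 + 5) ^ 2 + (M * y) ^ 2 = 25 + M ^ 2 * y ^ 2 := by ring
    rw [e]; ring
  have e6 : ((1 : ℝ) / 5 * 5 - 0 * M) * ((M * 0 + 5) ^ 2 - (M * y) ^ 2) /
      ((M * 0 + 5) ^ 2 + (M * y) ^ 2) ^ 2 = (25 - M ^ 2 * y ^ 2) / (25 + M ^ 2 * y ^ 2) ^ 2 := by
    have e : (M * 0 + 5) ^ 2 + (M * y) ^ 2 = 25 + M ^ 2 * y ^ 2 := by ring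
    rw [e]; ring
  have e7 : -(((1 : ℝ) / 5 * 5 - 0 * M) * (2 * (M * 0 + 5) * (M * y)) /
      ((M * 0 + 5) ^ 2 + (M * y) ^ 2) ^ 2) = -(10 * M * y) / (25 + M ^ 2 * y ^ 2) ^ 2 := by
    have e : (M * 0 + 5) ^ 2 + (M * y) ^ 2 = 25 + M ^ 2 * y ^ 2 := by ring
    rw [e]; ring
  rw [e4, e5, e6, e7] at heq
  rw [heq]
  have e8 : y / ((0 : ℝ) ^ 2 + y ^ 2) = 1 / y := by
    field_simp
    ring
  have e9 : -(M / 5) - (0 : ℝ) / ((0 : ℝ) ^ 2 + y ^ 2) = -(M / 5) := by simp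
  rw [e8, e9, E1I_dXk0 hPI hg s _ _ (by positivity)]
  have hpi := Real.pi_pos
  field_simp
  ring

/-- the substitution -/
theorem E1I_sub (G : ℝ → ℝ) (c : ℝ) (hG : ∀ a, a ≤ 1 → G a = 0) (hG2 : ∀ a, 2 ≤ a → G a = 0) :
    ∫ t : ℝ, G (c + t ^ 2) = ∫ σ in (1 : ℝ)..2, G σ / √(σ - c) := by
  have h1 : ∫ t : ℝ, G (c + t ^ 2) = 2 * ∫ t in Ioi (0 : ℝ), G (c + t ^ 2) := by
    have := integral_comp_abs (f := fun t : ℝ => G (c + t ^ 2))
    simpa [sq_abs] using this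
  have himg : (fun t : ℝ => c + t ^ 2) '' Ioi 0 = Ioi c := by
    ext a
    simp only [mem_image, mem_Ioi]
    constructor
    · rintro ⟨t, ht, rfl⟩
      have : 0 < t ^ 2 := by positivity
      linarith
    · intro ha
      refine ⟨√(a - c), Real.sqrt_pos.mpr (by linarith), ?_⟩
      rw [Real.sq_sqrt (by linarith)]
      ring
  have h2 := integral_image_eq_integral_abs_deriv_smul (s := Ioi (0 : ℝ))
    (f := fun t : ℝ => c + t ^ 2) (f' := fun t => 2 * t) measurableSet_Ioi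
    (fun t _ => by
      have := (hasDerivAt_pow 2 t).const_add c
      simpa using this.hasDerivWithinAt)
    (by
      intro t ht t' ht' h
      simp only [mem_Ioi] at ht ht'
      simp only at h
      have : t ^ 2 = t' ^ 2 := by linarith
      exact (pow_left_inj₀ ht.le ht'.le (by norm_num)).mp this)
    (fun σ => G σ / √(σ - c))
  rw [himg] at h2
  have h3 : ∫ t in Ioi (0 : ℝ), |2 * t| • (G (c + t ^ 2) / √(c + t ^ 2 - c)) =
      ∫ t in Ioi (0 : ℝ), 2 * G (c + t ^ 2) := by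
    apply setIntegral_congr_fun measurableSet_Ioi
    intro t ht
    simp only [mem_Ioi] at ht
    simp only [smul_eq_mul]
    rw [abs_of_pos (by linarith), add_sub_cancel_left, Real.sqrt_sq ht.le]
    field_simp
  rw [h3, integral_const_mul, ← h1] at h2
  rw [← h2]
  have h4 : ∫ σ in Ioi c, G σ / √(σ - c) = ∫ σ, G σ / √(σ - c) := by
    apply setIntegral_eq_integral_of_forall_compl_eq_zero
    intro σ hσ
    simp only [mem_Ioi, not_lt] at hσ
    rw [Real.sqrt_eq_zero_of_nonpos (by linarith), div_zero]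
  have h5 : ∫ σ in Ioc (1 : ℝ) 2, G σ / √(σ - c) = ∫ σ, G σ / √(σ - c) := by
    apply setIntegral_eq_integral_of_forall_compl_eq_zero
    intro σ hσ
    simp only [mem_Ioc, not_and_or, not_lt, not_le] at hσ
    rcases hσ with h | h
    · rw [hG σ h, zero_div]
    · rw [hG2 σ h.le, zero_div]
  rw [h4, ← h5, intervalIntegral.integral_of_le (by norm_num)]

theorem E1I_dlo {g : ℝ → ℝ} (hg : Prof g) : ∀ a, a ≤ 1 → deriv g a = 0 := by
  have hc : Continuous (deriv g) := (K0_smooth' hg.smooth).continuous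
  have h1 : Iio (1 : ℝ) ⊆ {a | deriv g a = 0} := by
    intro a ha
    have : g =ᶠ[nhds a] fun _ => 0 := by
      filter_upwards [Iio_mem_nhds ha] with b hb
      exact hg.lo b (le_of_lt hb)
    show deriv g a = 0
    rw [this.deriv_eq]; simp
  have h2 : closure (Iio (1 : ℝ)) ⊆ {a | deriv g a = 0} :=
    closure_minimal h1 (isClosed_eq hc continuous_const)
  rw [closure_Iio] at h2
  exact fun a ha => h2 ha

theorem E1I_dhi {g : ℝ → ℝ} (hg : Pg g) : ∀ a, 2 ≤ a → deriv g a = 0 := by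
  have hc : Continuous (deriv g) := (K0_smooth' hg.1.smooth).continuous
  have h1 : Ioi (2 : ℝ) ⊆ {a | deriv g a = 0} := by
    intro a ha
    have : g =ᶠ[nhds a] fun _ => 0 := by
      filter_upwards [Ioi_mem_nhds ha] with b hb
      exact hg.2 b (le_of_lt hb)
    show deriv g a = 0
    rw [this.deriv_eq]; simp
  have h2 : closure (Ioi (2 : ℝ)) ⊆ {a | deriv g a = 0} :=
    closure_minimal h1 (isClosed_eq hc continuous_const)
  rw [closure_Ioi] at h2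
  exact fun a ha => h2 ha

/-- the exact term -/
theorem E1I_val (hPI : PI_stmt) (hK01 : K01_stmt) (hK0 : K0_stmt) (hK1 : K1_stmt) {g : ℝ → ℝ}
    (hg : Pg g) (M l l' y : ℝ) (hl : 0 < l) (hl' : 0 < l') (hy : 0 < y) :
    dX (k1 g) (ss l l' y) (M * y ^ 2 / (5 * (25 + M ^ 2 * y ^ 2))) (y / (25 + M ^ 2 * y ^ 2)) *
        ((25 - M ^ 2 * y ^ 2) / (25 + M ^ 2 * y ^ 2) ^ 2) +
      dY (k1 g) (ss l l' y) (M * y ^ 2 / (5 * (25 + M ^ 2 * y ^ 2))) (y / (25 + M ^ 2 * y ^ 2)) *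
        (-(10 * M * y) / (25 + M ^ 2 * y ^ 2) ^ 2) =
      √(qq l l' y) * (1 / (Real.pi * y * √(BB l l' y)) *
        ∫ σ in (1 : ℝ)..2, deriv g σ / √(σ * BB l l' y - 1 - M ^ 2 * y ^ 2 / 25)) := by
  have hB : 0 < BB l l' y := by unfold BB; positivity
  have hq : qq l l' y = BB l l' y / y := by unfold qq BB; field_simp
  have hq0 : 0 < qq l l' y := by rw [hq]; positivity
  rw [E1I_der hPI hK01 hK0 hK1 hg.1 M _ y hy]
  have hexp2 : Real.exp (2 * ss l l' y) = 1 / qq l l' y := by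
    unfold ss
    have : 2 * (-(1 / 2) * Real.log (qq l l' y)) = -Real.log (qq l l' y) := by ring
    rw [this, Real.exp_neg, Real.exp_log hq0, one_div]
  have hexp1 : Real.exp (ss l l' y) = 1 / √(qq l l' y) := by
    have h1 : Real.exp (ss l l' y) ^ 2 = 1 / qq l l' y := by
      rw [← hexp2, ← Real.exp_nat_mul]; norm_num
    have h2 : (1 / √(qq l l' y)) ^ 2 = 1 / qq l l' y := by
      rw [div_pow, Real.sq_sqrt hq0.le, one_pow]
    have h3 : 0 < 1 / √(qq l l' y) := by positivity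
    exact (pow_left_inj₀ (Real.exp_pos _).le h3.le (by norm_num)).mp (h1.trans h2.symm)
  have harg : Real.exp (2 * ss l l' y) * ((-(M / 5)) ^ 2 + (1 / y) ^ 2) / (1 / y) =
      (1 + M ^ 2 * y ^ 2 / 25) / BB l l' y := by
    rw [hexp2, hq]
    field_simp
    ring
  rw [harg, hexp1]
  unfold K0_G
  rw [E1I_sub (deriv g) _ (E1I_dlo hg.1) (E1I_dhi hg)]
  have hint : ∫ σ in (1 : ℝ)..2, deriv g σ / √(σ - (1 + M ^ 2 * y ^ 2 / 25) / BB l l' y) =
      √(BB l l' y) * ∫ σ in (1 : ℝ)..2, deriv g σ / √(σ * BB l l' y - 1 - M ^ 2 * y ^ 2 / 25) := by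
    rw [← intervalIntegral.integral_const_mul]
    apply intervalIntegral.integral_congr
    intro σ _
    simp only
    have e : σ - (1 + M ^ 2 * y ^ 2 / 25) / BB l l' y =
        (σ * BB l l' y - 1 - M ^ 2 * y ^ 2 / 25) / BB l l' y := by
      field_simp
      ring
    rw [e, Real.sqrt_div' _ hB.le]
    have hs : √(BB l l' y) ≠ 0 := (Real.sqrt_pos.mpr hB).ne'
    rw [div_div_eq_mul_div]
    ring
  rw [hint]
  have hsq : √(qq l l' y) = √(BB l l' y) / √y := by rw [hq, Real.sqrt_div' _ hy.le]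
  rw [hsq]
  have hpi := Real.pi_pos
  have hsB : 0 < √(BB l l' y) := Real.sqrt_pos.mpr hB
  have hsy : 0 < √y := Real.sqrt_pos.mpr hy
  have hyy : y = √y ^ 2 := by rw [Real.sq_sqrt hy.le]
  generalize (∫ σ in (1 : ℝ)..2, deriv g σ / √(σ * BB l l' y - 1 - M ^ 2 * y ^ 2 / 25)) = I
  generalize √(BB l l' y) = b at *
  have hy2 : Real.pi * y ^ 2 = Real.pi * (√y ^ 2 * y) := by rw [← hyy]; ring
  rw [hy2]
  field_simp

theorem E1I_chi (a b : ℤ) (h : (5 : ℤ) ∣ a * b - 1 ∨ (5 : ℤ) ∣ a * b + 1) : chi a = chi b := by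
  have ha : a % 5 = 0 ∨ a % 5 = 1 ∨ a % 5 = 2 ∨ a % 5 = 3 ∨ a % 5 = 4 := by omega
  have hb : b % 5 = 0 ∨ b % 5 = 1 ∨ b % 5 = 2 ∨ b % 5 = 3 ∨ b % 5 = 4 := by omega
  have hab : (a * b) % 5 = ((a % 5) * (b % 5)) % 5 := Int.mul_emod a b 5
  have h' : (a * b) % 5 = 1 ∨ (a * b) % 5 = 4 := by omega
  rw [hab] at h'
  unfold chi
  rcases ha with ha | ha | ha | ha | ha <;> rcases hb with hb | hb | hb | hb | hb <;>
    rw [ha, hb] at h' <;> simp_all

theorem E1I (hPI : PI_stmt) (hK01 : K01_stmt) (hK0 : K0_stmt) (hK1 : K1_stmt) : E1I_stmt := by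
  intro v hv h5
  obtain ⟨m, n⟩ := v
  simp only at h5
  have hgcd : Int.gcd m n = 1 := hv
  have hbez : (1 : ℤ) = m * Int.gcdA m n + n * Int.gcdB m n := by
    have := Int.gcd_eq_gcd_ab m n
    rw [hgcd] at this
    exact_mod_cast this
  -- sign
  obtain ⟨σ, hσ, hn⟩ : ∃ σ : ℤ, (σ = 1 ∨ σ = -1) ∧ n = 5 * σ := by
    rcases h5 with h | h
    · exact ⟨1, Or.inl rfl, by omega⟩
    · exact ⟨-1, Or.inr rfl, by omega⟩
  have hσ2 : σ * σ = 1 := by rcases hσ with rfl | rfl <;> norm_num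
  refine ⟨σ * Int.gcdA m n, ?_, ?_, ?_, ?_⟩
  · apply E1I_chi
    rcases hσ with h | h
    · left
      refine ⟨-Int.gcdB m n, ?_⟩
      rw [h] at hn ⊢
      rw [hn] at hbez ⊢
      linarith
    · right
      refine ⟨-Int.gcdB m n, ?_⟩
      rw [h] at hn ⊢
      rw [hn] at hbez ⊢
      linarith
  all_goals
    have hXX : ∀ y : ℝ, 0 < y → XX (m, n) 0 y + ((σ * Int.gcdA m n : ℤ) : ℝ) / 5 =
        ((σ : ℝ) * m) * y ^ 2 / (5 * (25 + ((σ : ℝ) * m) ^ 2 * y ^ 2)) := by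
      intro y hy
      have hσr : (σ : ℝ) * σ = 1 := by exact_mod_cast hσ2
      have hσr2 : (σ : ℝ) ^ 2 = 1 := by rw [sq]; exact hσr
      have hnr : (n : ℝ) = 5 * σ := by exact_mod_cast hn
      have hbr : (1 : ℝ) = m * (Int.gcdA m n : ℝ) + n * (Int.gcdB m n : ℝ) := by exact_mod_cast hbez
      unfold XX Xr
      simp only
      push_cast
      set A := (Int.gcdA m n : ℝ)
      set B := (Int.gcdB m n : ℝ)
      rw [hnr] at hbr ⊢
      have e1 : ((m : ℝ) * 0 + 5 * σ) ^ 2 + (m * y) ^ 2 = 25 + (m : ℝ) ^ 2 * y ^ 2 := by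
        have : ((m : ℝ) * 0 + 5 * σ) ^ 2 + (m * y) ^ 2 = 25 * σ ^ 2 + (m : ℝ) ^ 2 * y ^ 2 := by ring
        rw [this, hσr2]; ring
      have e2 : 25 + ((σ : ℝ) * m) ^ 2 * y ^ 2 = 25 + (m : ℝ) ^ 2 * y ^ 2 := by
        rw [mul_pow, hσr2]; ring
      rw [e1, e2]
      have hpos : 0 < 25 + (m : ℝ) ^ 2 * y ^ 2 := by positivity
      rw [div_add_div _ _ hpos.ne' (by norm_num), div_eq_div_iff (by positivity) (by positivity)]
      have e3 : B = σ * (1 - m * A) / 5 := by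
        have h1 : (σ : ℝ) * 1 = σ * (m * A + 5 * σ * B) := by rw [← hbr]
        have h2 : (σ : ℝ) * (m * A + 5 * σ * B) = σ * m * A + 5 * (σ * σ) * B := by ring
        rw [h2, hσr] at h1
        linarith
      rw [e3]
      have h3 : (σ : ℝ) ^ 2 = 1 := hσr2
      have e4 : ((((σ : ℝ) * (1 - m * A) / 5 * 0 + -A) * (m * 0 + 5 * σ) +
          σ * (1 - m * A) / 5 * m * y ^ 2) * 5 + (25 + (m : ℝ) ^ 2 * y ^ 2) * (σ * A)) =
          σ * m * y ^ 2 := by ring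
      rw [e4]
      ring
  · intro y hy
    rw [hXX y hy]
    set M := (σ : ℝ) * m
    have hpos : 0 < 25 + M ^ 2 * y ^ 2 := by positivity
    rw [abs_le]
    constructor
    · rw [neg_le_iff_add_nonneg, div_add_div _ _ (by positivity) (by positivity)]
      apply div_nonneg _ (by positivity)
      nlinarith [sq_nonneg (M * y + 5)]
    · rw [div_le_div_iff₀ (by positivity) (by positivity)]
      nlinarith [sq_nonneg (M * y - 5)]
  · unfold cpl
    simp only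
    rw [hn]
    linear_combination (5 * Int.gcdA m (5 * σ)) * hσ2
  · intro g hg l l' y hl hl' hy
    rw [hXX y hy]
    have hσr2 : (σ : ℝ) ^ 2 = 1 := by
      rw [sq]; exact_mod_cast hσ2
    have hnr : (n : ℝ) = 5 * σ := by exact_mod_cast hn
    have hM2 : ((σ : ℝ) * m) ^ 2 = (m : ℝ) ^ 2 := by rw [mul_pow, hσr2, one_mul]
    have hval := E1I_val hPI hK01 hK0 hK1 hg ((σ : ℝ) * m) l l' y hl hl' hy
    unfold Fv TT
    simp only
    have e1 : nv (m, n) y = 25 + ((σ : ℝ) * m) ^ 2 * y ^ 2 := by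
      unfold nv
      simp only
      rw [hM2, hnr, mul_pow, hσr2]; ring
    have e2 : ((n : ℝ) ^ 2 - (m : ℝ) ^ 2 * y ^ 2) = 25 - ((σ : ℝ) * m) ^ 2 * y ^ 2 := by
      rw [hM2, hnr, mul_pow, hσr2]; ring
    have e3 : -(2 * (m : ℝ) * n * y) = -(10 * ((σ : ℝ) * m) * y) := by
      rw [hnr]; ring
    rw [e1, e2, e3, hval, hM2]

end SF
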