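import Pool.Agent.helper1.SF.SpecA

set_option autoImplicit false

namespace SF

open Pool.Agent.helper72.Sq MeasureTheory Set
open scoped ContDiff

theorem GJC (hJ5 : J5_stmt) (hJB : JB_stmt) (hA : PKA_stmt) (hB : PKB_stmt) : GJC_stmt := by
  obtain ⟨C, hC, hJ⟩ := hJB
  obtain ⟨C', hC', hP⟩ := hB
  refine ⟨4 * C * C', by positivity, ?_⟩
  intro k a b m ha hb hm hle
  have hprof : Prof (pk k) := (hA.2.2 k).1
  have hbd := hP k
  set B := C' * 2 ^ (12 * k) with hBdef
  have hBpos : 0 < B := by positivity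
  have ha0 : (0 : ℝ) < a := by linarith
  have hb0 : (0 : ℝ) < b := by linarith
  have hm0 : (0 : ℝ) < m := by linarith
  have hS0 : (0 : ℝ) < a + b := by linarith
  have h5 := hJ5 (pk k) hprof a b ha0 hb0
  have hba : a + b = a + b := rfl
  have h1 := (hJ (pk k) B hprof hbd a (a + b) ha0 hS0).2.2 m hm0 hle
  have h2 := (hJ (pk k) B hprof hbd b (a + b) hb0 hS0).2.2 m hm0 hle
  have h3 := (hJ (pk k) B hprof hbd b m hb0 hm0).2.1
  have h4 := (hJ (pk k) B hprof hbd b (a + b) hb0 hS0).2.1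
  have key : ∀ l : ℝ, 1 ≤ l → C * B * (1 / l + 1 / m) * (1 / m) * (a + b - m)
      ≤ 2 * C * B * (a + b - m) := by
    intro l hl
    have e1 : 1 / l ≤ 1 := by rw [div_le_one (by linarith)]; exact hl
    have e2 : 1 / m ≤ 1 := by rw [div_le_one hm0]; exact hm
    have e3 : 0 < 1 / l := by positivity
    have e4 : 0 < 1 / m := by positivity
    have e5 : (1 / l + 1 / m) * (1 / m) ≤ 2 := by nlinarith
    have e6 : 0 ≤ C * B * (a + b - m) := mul_nonneg (by positivity) (by linarith)
    calc C * B * (1 / l + 1 / m) * (1 / m) * (a + b - m)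
        = (C * B * (a + b - m)) * ((1 / l + 1 / m) * (1 / m)) := by ring
      _ ≤ (C * B * (a + b - m)) * 2 := mul_le_mul_of_nonneg_left e5 e6
      _ = _ := by ring
  have k1 := key a ha
  have k2 := key b hb
  have h6 : jj (pk k) a m + jj (pk k) m b - jj (pk k) a b
      = (jj (pk k) a m - jj (pk k) a (a + b)) - (jj (pk k) b m - jj (pk k) b (a + b)) := by
    rw [h5, h3, h4]; ring
  rw [h6]
  calc |(jj (pk k) a m - jj (pk k) a (a + b)) - (jj (pk k) b m - jj (pk k) b (a + b))|
      ≤ |jj (pk k) a m - jj (pk k) a (a + b)| + |jj (pk k) b m - jj (pk k) b (a + b)| :=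
        abs_sub _ _
    _ ≤ 2 * C * B * (a + b - m) + 2 * C * B * (a + b - m) := by linarith
    _ = _ := by rw [hBdef]; ring

end SF
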