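import Mathlib
import Pool.Agent.helper68.SF.SpecW

/-! # Project SF (MP_d52931_gt), row sw:N3: the value of `N` for `A ≥ 3` -/

set_option autoImplicit false

namespace SF

open MeasureTheory Set
open scoped ContDiff Real

theorem N3_deriv_zero {g : ℝ → ℝ} (hg : Prof g) : ∀ a, 3 ≤ a → deriv g a = 0 := by
  have hc : Continuous (deriv g) := hg.smooth.continuous_deriv (by simp)
  have h1 : EqOn (deriv g) (fun _ => (0 : ℝ)) (Ioi 3) := by
    intro a ha
    have h2 : g =ᶠ[nhds a] fun _ => (0 : ℝ) := by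
      filter_upwards [Ioi_mem_nhds ha] with x hx
      exact hg.hi x (le_of_lt hx)
    show deriv g a = 0
    rw [h2.deriv_eq]
    simp
  have h3 := h1.closure hc continuous_const
  rw [closure_Ioi] at h3
  intro a ha
  exact h3 ha

theorem N3_radial (g : ℝ → ℝ) (hg : Prof g) (A c : ℝ) (hA : 3 ≤ A) (hc0 : 0 < c) (hc1 : c ≤ 1) :
    ∫ r in Ioi (0 : ℝ), r * deriv g (A * (r ^ 2 + 1 - c ^ 2)) =
      -(1 / (2 * A)) * g (A * (1 - c ^ 2)) := by
  have hA0 : (0 : ℝ) < A := by linarith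
  have hc : Continuous (deriv g) := hg.smooth.continuous_deriv (by simp)
  have hbig : ∀ r : ℝ, r ∉ Icc (-1 : ℝ) 1 → 3 ≤ A * (r ^ 2 + 1 - c ^ 2) := by
    intro r hr
    have h1 : 1 ≤ r ^ 2 := by
      by_contra h
      push Not at h
      apply hr
      exact abs_le.1 (abs_le_one_iff_mul_self_le_one.2 (by nlinarith))
    have h2 : c ^ 2 ≤ 1 := by nlinarith
    nlinarith
  have hint : Integrable (fun r : ℝ => r * deriv g (A * (r ^ 2 + 1 - c ^ 2))) := by
    apply Continuous.integrable_of_hasCompactSupport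
    · fun_prop
    · apply HasCompactSupport.intro (isCompact_Icc (a := (-1 : ℝ)) (b := 1))
      intro r hr
      rw [N3_deriv_zero hg _ (hbig r hr), mul_zero]
  have hder : ∀ r ∈ Ici (0 : ℝ), HasDerivAt (fun r : ℝ => 1 / (2 * A) * g (A * (r ^ 2 + 1 - c ^ 2)))
      (r * deriv g (A * (r ^ 2 + 1 - c ^ 2))) r := by
    intro r _
    have h1 : HasDerivAt g (deriv g (A * (r ^ 2 + 1 - c ^ 2))) (A * (r ^ 2 + 1 - c ^ 2)) :=
      ((hg.smooth.differentiable (by simp)) _).hasDerivAt
    have h2 : HasDerivAt (fun r : ℝ => A * (r ^ 2 + 1 - c ^ 2)) (A * (2 * r)) r := by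
      have h3 : HasDerivAt (fun r : ℝ => r ^ 2) (2 * r) r := by
        have := hasDerivAt_pow 2 r
        simpa using this
      exact ((h3.add_const 1).sub_const (c ^ 2)).const_mul A
    have h4 := (h1.comp r h2).const_mul (1 / (2 * A))
    refine h4.congr_deriv ?_
    field_simp
  have hlim : Filter.Tendsto (fun r : ℝ => 1 / (2 * A) * g (A * (r ^ 2 + 1 - c ^ 2)))
      Filter.atTop (nhds 0) := by
    apply tendsto_const_nhds.congr'
    filter_upwards [Filter.eventually_gt_atTop (1 : ℝ)] with r hr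
    rw [hg.hi _ (hbig r (fun h => absurd h.2 (not_le.2 hr))), mul_zero]
  have h5 := integral_Ioi_of_hasDerivAt_of_tendsto' hder hint.integrableOn hlim
  rw [h5]
  have h6 : (0 : ℝ) ^ 2 + 1 - c ^ 2 = 1 - c ^ 2 := by ring
  rw [h6]
  ring

theorem N3 : N3_stmt := by
  intro g hg A c hA hc0 hc1
  have hA0 : (0 : ℝ) < A := by linarith
  have hc : Continuous (deriv g) := hg.smooth.continuous_deriv (by simp)
  have hzero : ∀ p t : ℝ, c ^ 2 ≤ p ^ 2 + t ^ 2 → deriv g (A * (p ^ 2 + t ^ 2 + 1 - c ^ 2)) = 0 := by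
    intro p t h
    apply N3_deriv_zero hg
    nlinarith
  set F : ℝ × ℝ → ℝ := fun z => deriv g (A * (z.1 ^ 2 + z.2 ^ 2 + 1 - c ^ 2)) with hF
  have hFc : Continuous F := by
    rw [hF]
    fun_prop
  have hFs : HasCompactSupport F := by
    apply HasCompactSupport.intro (isCompact_Icc (a := (-1 : ℝ)) (b := 1) |>.prod
      (isCompact_Icc (a := (-1 : ℝ)) (b := 1)))
    rintro ⟨p, t⟩ hpt
    apply hzero
    have hc2 : c ^ 2 ≤ 1 := by nlinarith
    by_contra h
    push Not at h
    apply hpt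
    have h1 : p ^ 2 ≤ 1 := by nlinarith [sq_nonneg t]
    have h2 : t ^ 2 ≤ 1 := by nlinarith [sq_nonneg p]
    exact ⟨abs_le.1 (abs_le_one_iff_mul_self_le_one.2 (by nlinarith)),
      abs_le.1 (abs_le_one_iff_mul_self_le_one.2 (by nlinarith))⟩
  have hFint : Integrable F := hFc.integrable_of_hasCompactSupport hFs
  set G : ℝ → ℝ := fun p => ∫ t : ℝ, deriv g (A * (p ^ 2 + t ^ 2 + 1 - c ^ 2)) with hG
  have hGabs : ∀ p, G |p| = G p := by
    intro p
    simp only [hG, sq_abs]
  have hGzero : ∀ p, c ≤ p → G p = 0 := by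
    intro p hp
    rw [hG]
    have h1 : (fun t : ℝ => deriv g (A * (p ^ 2 + t ^ 2 + 1 - c ^ 2))) = fun _ => 0 := by
      funext t
      apply hzero
      nlinarith [sq_nonneg t]
    show ∫ t : ℝ, deriv g (A * (p ^ 2 + t ^ 2 + 1 - c ^ 2)) = 0
    rw [h1]
    simp
  -- the double integral
  have h2 : ∫ z, F z = ∫ p, G p := by
    rw [Measure.volume_eq_prod]
    exact integral_prod F (by rw [← Measure.volume_eq_prod]; exact hFint)
  have h3 : ∫ p, G p = 2 * ∫ p in Ioi (0 : ℝ), G p := by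
    have h4 := integral_comp_abs (f := G)
    rw [← h4]
    apply integral_congr_ae
    filter_upwards with p
    exact (hGabs p).symm
  have h5 : ∫ p in Ioi (0 : ℝ), G p = ∫ p in (0 : ℝ)..c, G p := by
    rw [intervalIntegral.integral_of_le hc0.le]
    apply setIntegral_eq_of_subset_of_forall_sdiff_eq_zero measurableSet_Ioi
    · exact Ioc_subset_Ioi_self
    · rintro p ⟨hp1, hp2⟩
      apply hGzero
      by_contra h
      push Not at h
      exact hp2 ⟨hp1, h.le⟩
  -- polar coordinates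
  have h6 := integral_comp_polarCoord_symm F
  have h7 : ∫ p in polarCoord.target, p.1 • F (polarCoord.symm p) =
      (∫ r in Ioi (0 : ℝ), r * deriv g (A * (r ^ 2 + 1 - c ^ 2))) * ∫ _θ in Ioo (-π) π, (1 : ℝ) := by
    rw [polarCoord_target, ← setIntegral_prod_mul]
    rw [← Measure.volume_eq_prod]
    apply setIntegral_congr_fun (measurableSet_Ioi.prod measurableSet_Ioo)
    rintro ⟨r, θ⟩ _
    simp only [hF, polarCoord_symm_apply, smul_eq_mul, mul_one]
    have h8 : (r * Real.cos θ) ^ 2 + (r * Real.sin θ) ^ 2 = r ^ 2 := by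
      have := Real.sin_sq_add_cos_sq θ
      linear_combination r ^ 2 * this
    rw [h8]
  have h9 : ∫ _θ in Ioo (-π) π, (1 : ℝ) = 2 * π := by
    rw [setIntegral_const, smul_eq_mul, mul_one, Real.volume_real_Ioo]
    rw [max_eq_left]
    · ring
    · linarith [Real.pi_pos]
  rw [h7, N3_radial g hg A c hA hc0 hc1, h9] at h6
  have h10 : ∫ p in (0 : ℝ)..c, G p = (1 / 2) * (-(1 / (2 * A)) * g (A * (1 - c ^ 2)) * (2 * π)) := by
    rw [h6, h2, h3, h5]
    ring
  show A * ∫ p in (0 : ℝ)..c, G p = _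
  rw [h10]
  field_simp

end SF
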