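import Mathlib
import Pool.Agent.helper68.SF.SpecE

/-! # Project SF (MP_d52931_gt), row se:TBD: total boundedness -/

set_option autoImplicit false

namespace SF

open MeasureTheory Set
open scoped ContDiff

/-- the upper half plane -/
def TBD_U : Set (ℝ × ℝ) := {p | 0 < p.2}

theorem TBD_U_open : IsOpen TBD_U := isOpen_lt continuous_const continuous_snd

/-- the integrand -/
noncomputable def TBD_f (h : ℝ × ℝ → ℝ) (p : ℝ × ℝ) : ℝ := h p ^ 2 + px h p ^ 2 + py h p ^ 2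

theorem TBD_f_nonneg (h : ℝ × ℝ → ℝ) (p : ℝ × ℝ) : 0 ≤ TBD_f h p := by
  unfold TBD_f
  positivity

theorem TBD_px {h : ℝ × ℝ → ℝ} (hh : ContDiffOn ℝ ∞ h TBD_U) : ContinuousOn (px h) TBD_U :=
  (hh.continuousOn_fderiv_of_isOpen TBD_U_open (by simp)).clm_apply continuousOn_const

theorem TBD_py {h : ℝ × ℝ → ℝ} (hh : ContDiffOn ℝ ∞ h TBD_U) : ContinuousOn (py h) TBD_U :=
  (hh.continuousOn_fderiv_of_isOpen TBD_U_open (by simp)).clm_apply continuousOn_const

theorem TBD_fc {h : ℝ × ℝ → ℝ} (hh : ContDiffOn ℝ ∞ h TBD_U) : ContinuousOn (TBD_f h) TBD_U :=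
  ((hh.continuousOn.pow 2).add ((TBD_px hh).pow 2)).add ((TBD_py hh).pow 2)

theorem TBD_circle : volume {p : ℝ × ℝ | p.1 ^ 2 + p.2 ^ 2 = 1} = 0 := by
  have hm : MeasurableSet {p : ℝ × ℝ | p.1 ^ 2 + p.2 ^ 2 = 1} :=
    (isClosed_eq (by fun_prop) continuous_const).measurableSet
  rw [Measure.volume_eq_prod, Measure.measure_prod_null hm]
  filter_upwards with x
  have hfin : (Prod.mk x ⁻¹' {p : ℝ × ℝ | p.1 ^ 2 + p.2 ^ 2 = 1}).Finite := by
    apply (Set.toFinite {√(1 - x ^ 2), -√(1 - x ^ 2)}).subset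
    intro y hy
    have h1 : x ^ 2 + y ^ 2 = 1 := hy
    have h2 : √(1 - x ^ 2) = |y| := by
      rw [← Real.sqrt_sq_eq_abs]
      congr 1
      linarith
    rw [h2]
    rcases abs_cases y with h3 | h3
    · left; exact h3.1.symm
    · right
      show y = -|y|
      rw [h3.1, neg_neg]
  exact hfin.measure_zero _

theorem TBD_vline (c : ℝ) : volume {p : ℝ × ℝ | p.1 = c} = 0 := by
  have h : {p : ℝ × ℝ | p.1 = c} = {c} ×ˢ univ := by
    ext p
    simp
  rw [h, Measure.volume_eq_prod, Measure.prod_prod, Real.volume_singleton, zero_mul]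

theorem TBD_hline (c : ℝ) : volume {p : ℝ × ℝ | p.2 = c} = 0 := by
  have h : {p : ℝ × ℝ | p.2 = c} = univ ×ˢ {c} := by
    ext p
    simp
  rw [h, Measure.volume_eq_prod, Measure.prod_prod, Real.volume_singleton, mul_zero]

theorem TBD_Dm_meas : MeasurableSet Dm := by
  have h1 : Dm = (fun p : ℝ × ℝ => p.1) ⁻¹' Ioo 0 (1 / 2) ∩ ((fun p : ℝ × ℝ => p.2) ⁻¹' Ioi 0 ∩
      (fun p : ℝ × ℝ => p.1 ^ 2 + p.2 ^ 2) ⁻¹' Ioi 1) := by
    ext p
    simp only [Dm, mem_ofPred_eq, mem_inter_iff, mem_preimage, mem_Ioo, mem_Ioi]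
    tauto
  rw [h1]
  exact (measurable_fst measurableSet_Ioo).inter ((measurable_snd measurableSet_Ioi).inter
    ((by fun_prop : Measurable fun p : ℝ × ℝ => p.1 ^ 2 + p.2 ^ 2) measurableSet_Ioi))

theorem TBD_Dm_sub : Dm ⊆ TBD_U := fun _ hp => hp.2.2.1

theorem TBD_Dm_y {p : ℝ × ℝ} (hp : p ∈ Dm) : 3 / 4 < p.2 ^ 2 := by
  obtain ⟨h1, h2, h3, h4⟩ := hp
  nlinarith

/-- integrability of the unweighted integrand -/
theorem TBD_Dm_int {h : ℝ × ℝ → ℝ} (hh : ContDiffOn ℝ ∞ h TBD_U)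
    (hint : IntegrableOn (fun p : ℝ × ℝ => p.2 ^ 2 * TBD_f h p) Dm) :
    IntegrableOn (TBD_f h) Dm ∧
      ∫ p in Dm, TBD_f h p ≤ 4 / 3 * ∫ p in Dm, p.2 ^ 2 * TBD_f h p := by
  have hb : ∀ p ∈ Dm, TBD_f h p ≤ 4 / 3 * (p.2 ^ 2 * TBD_f h p) := by
    intro p hp
    have h1 := TBD_Dm_y hp
    have h2 := TBD_f_nonneg h p
    nlinarith [mul_nonneg h2 (le_of_lt (sub_pos.2 h1))]
  have hi : IntegrableOn (TBD_f h) Dm := by
    refine Integrable.mono' (hint.const_mul (4 / 3)) ?_ ?_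
    · exact ((TBD_fc hh).mono TBD_Dm_sub).aestronglyMeasurable TBD_Dm_meas
    · rw [ae_restrict_iff' TBD_Dm_meas]
      filter_upwards with p hp
      rw [Real.norm_eq_abs, abs_of_nonneg (TBD_f_nonneg h p)]
      exact hb p hp
  refine ⟨hi, ?_⟩
  rw [← integral_const_mul]
  exact setIntegral_mono_on hi (hint.const_mul (4 / 3)) TBD_Dm_meas hb

/-- the set which is covered by `Dm` and its reflection -/
def TBD_S : Set (ℝ × ℝ) := {p | 0 ≤ p.1 ∧ p.1 ≤ 1 / 2 ∧ √3 / 2 ≤ p.2}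

theorem TBD_S_int (hRFG : RFG_stmt) {h : ℝ × ℝ → ℝ} (hh : ContDiffOn ℝ ∞ h TBD_U)
    (hinv : ∀ x y : ℝ, 0 < y → h (x / (x ^ 2 + y ^ 2), y / (x ^ 2 + y ^ 2)) = -h (x, y))
    (hint : IntegrableOn (fun p : ℝ × ℝ => p.2 ^ 2 * TBD_f h p) Dm) (M : ℝ)
    (hM : ∫ p in Dm, p.2 ^ 2 * TBD_f h p ≤ M) :
    IntegrableOn (TBD_f h) TBD_S ∧ ∫ p in TBD_S, TBD_f h p ≤ 20 / 3 * M := by
  obtain ⟨hi, hle⟩ := TBD_Dm_int hh hint
  set A : Set (ℝ × ℝ) := {p | 0 < p.1 ∧ p.1 < 1 / 2 ∧ √3 / 2 ≤ p.2 ∧ p.1 ^ 2 + p.2 ^ 2 < 1} with hA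
  have hAm : MeasurableSet A := by
    have h1 : A = (fun p : ℝ × ℝ => p.1) ⁻¹' Ioo 0 (1 / 2) ∩
        ((fun p : ℝ × ℝ => p.2) ⁻¹' Ici (√3 / 2) ∩
        (fun p : ℝ × ℝ => p.1 ^ 2 + p.2 ^ 2) ⁻¹' Iio 1) := by
      ext p
      simp only [hA, mem_ofPred_eq, mem_inter_iff, mem_preimage, mem_Ioo, mem_Ici, mem_Iio]
      tauto
    rw [h1]
    exact (measurable_fst measurableSet_Ioo).inter ((measurable_snd measurableSet_Ici).inter
      ((by fun_prop : Measurable fun p : ℝ × ℝ => p.1 ^ 2 + p.2 ^ 2) measurableSet_Iio))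
  have hs3 : (√3) ^ 2 = 3 := Real.sq_sqrt (by norm_num)
  have hs30 : 0 < √3 := Real.sqrt_pos.2 (by norm_num)
  have hR := hRFG h A hh hinv hAm (by
    rintro p ⟨h1, h2, h3, h4⟩
    have h5 : 3 / 4 ≤ p.2 ^ 2 := by nlinarith
    refine ⟨h1, by linarith, h4, by nlinarith, ?_⟩
    nlinarith [mul_pos (sub_pos.2 h2) (sub_pos.2 (show p.1 < 3 / 2 by linarith))]) hi
  obtain ⟨hiA, hleA⟩ := hR
  have hiA' : IntegrableOn (TBD_f h) A := hiA
  have hleA' : ∫ p in A, TBD_f h p ≤ 4 * ∫ p in Dm, TBD_f h p := hleA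
  have hdisj : Disjoint Dm A := by
    rw [Set.disjoint_left]
    rintro p hp hp'
    have h1 := hp.2.2.2
    have h2 := hp'.2.2.2
    linarith
  have hiU : IntegrableOn (TBD_f h) (Dm ∪ A) := hi.union hiA'
  have hsub : TBD_S ≤ᵐ[volume] (Dm ∪ A : Set (ℝ × ℝ)) := by
    rw [ae_le_set]
    have h1 : TBD_S \ (Dm ∪ A) ⊆ {p : ℝ × ℝ | p.1 = 0} ∪ ({p : ℝ × ℝ | p.1 = 1 / 2} ∪
        {p : ℝ × ℝ | p.1 ^ 2 + p.2 ^ 2 = 1}) := by
      rintro p ⟨⟨h1, h2, h3⟩, h4⟩
      by_contra h5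
      simp only [mem_union, mem_ofPred_eq, not_or] at h5
      obtain ⟨h6, h7, h8⟩ := h5
      have h9 : 0 < p.1 := lt_of_le_of_ne h1 (Ne.symm h6)
      have h10 : p.1 < 1 / 2 := lt_of_le_of_ne h2 h7
      apply h4
      rcases lt_or_gt_of_ne h8 with h11 | h11
      · right; exact ⟨h9, h10, h3, h11⟩
      · left; exact ⟨h9, h10, by linarith, h11⟩
    refine measure_mono_null h1 ?_
    rw [measure_union_null_iff, measure_union_null_iff]
    exact ⟨TBD_vline 0, TBD_vline (1 / 2), TBD_circle⟩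
  refine ⟨hiU.mono_set_ae hsub, ?_⟩
  have h2 : ∫ p in TBD_S, TBD_f h p ≤ ∫ p in Dm ∪ A, TBD_f h p :=
    setIntegral_mono_set hiU (ae_of_all _ fun p => TBD_f_nonneg h p) hsub
  rw [setIntegral_union hdisj hAm hi hiA'] at h2
  linarith

/-- the average over a rectangle -/
noncomputable def TBD_av (a η b η' : ℝ) (h : ℝ × ℝ → ℝ) : ℝ :=
  1 / (η * η') * ∫ q in Set.Icc a (a + η) ×ˢ Set.Icc b (b + η'), h q

theorem TBD_box_sub {a a' b b' : ℝ} (hb : 0 < b) : Icc a a' ×ˢ Icc b b' ⊆ TBD_U :=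
  fun _ hp => lt_of_lt_of_le hb hp.2.1

theorem TBD_box_int {f : ℝ × ℝ → ℝ} (hf : ContinuousOn f TBD_U) {a a' b b' : ℝ} (hb : 0 < b) :
    IntegrableOn f (Icc a a' ×ˢ Icc b b') :=
  (hf.mono (TBD_box_sub hb)).integrableOn_compact (isCompact_Icc.prod isCompact_Icc)

theorem TBD_var {h : ℝ × ℝ → ℝ} (hh : ContinuousOn h TBD_U) {a η b η' : ℝ} (hη : 0 < η)
    (hη' : 0 < η') (hb : 0 < b) :
    ∫ p in Icc a (a + η) ×ˢ Icc b (b + η'), h p ^ 2 =
      (∫ p in Icc a (a + η) ×ˢ Icc b (b + η'), (h p - TBD_av a η b η' h) ^ 2) +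
        η * η' * TBD_av a η b η' h ^ 2 := by
  set Q : Set (ℝ × ℝ) := Icc a (a + η) ×ˢ Icc b (b + η') with hQ
  set c : ℝ := TBD_av a η b η' h with hc
  have hi : IntegrableOn h Q := TBD_box_int hh hb
  have hi2 : IntegrableOn (fun p => h p ^ 2) Q := TBD_box_int (hh.pow 2) hb
  have hvol : volume.real Q = η * η' := by
    rw [hQ, Measure.real, Measure.volume_eq_prod, Measure.prod_prod, ENNReal.toReal_mul,
      Real.volume_Icc, Real.volume_Icc, ENNReal.toReal_ofReal, ENNReal.toReal_ofReal]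
    · ring
    · linarith
    · linarith
  have hfin : volume Q ≠ ⊤ := (isCompact_Icc.prod isCompact_Icc).measure_lt_top.ne
  have hic : IntegrableOn (fun _ : ℝ × ℝ => c ^ 2) Q := integrableOn_const hfin
  have havg : ∫ p in Q, h p = η * η' * c := by
    have h0 : c = 1 / (η * η') * ∫ p in Q, h p := rfl
    rw [h0]
    field_simp
  have h1 : ∫ p in Q, (h p - c) ^ 2 = (∫ p in Q, h p ^ 2) - 2 * c * (∫ p in Q, h p) + η * η' * c ^ 2 := by
    have h2 : ∀ p, (h p - c) ^ 2 = (h p ^ 2 - 2 * c * h p) + c ^ 2 := fun p => by ring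
    simp only [h2]
    have hi3 : IntegrableOn (fun p => h p ^ 2 - 2 * c * h p) Q := hi2.sub (hi.const_mul (2 * c))
    rw [integral_add hi3 hic, integral_sub hi2 (hi.const_mul (2 * c)),
      integral_const_mul, setIntegral_const, hvol, smul_eq_mul]
  rw [h1, havg]
  ring

theorem TBD_grid1 {f : ℝ × ℝ → ℝ} (hf : ContinuousOn f TBD_U) {a η b b' : ℝ} (hη : 0 < η)
    (hb : 0 < b) (n : ℕ) :
    ∫ p in Icc a (a + n * η) ×ˢ Icc b b', f p =
      ∑ i ∈ Finset.range n, ∫ p in Icc (a + i * η) (a + i * η + η) ×ˢ Icc b b', f p := by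
  induction n with
  | zero =>
    rw [Finset.sum_range_zero]
    have h1 : volume (Icc a (a + (0 : ℕ) * η) ×ˢ Icc b b') = 0 := by
      refine measure_mono_null ?_ (TBD_vline a)
      rintro p ⟨⟨h1, h2⟩, -⟩
      show p.1 = a
      push_cast at h2
      linarith
    exact setIntegral_measure_zero _ h1
  | succ n ih =>
    rw [Finset.sum_range_succ, ← ih]
    have h1 : Icc a (a + (n + 1 : ℕ) * η) ×ˢ Icc b b' =
        (Icc a (a + n * η) ×ˢ Icc b b') ∪ (Icc (a + n * η) (a + n * η + η) ×ˢ Icc b b') := by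
      have hn : (0 : ℝ) ≤ n * η := by positivity
      ext p
      simp only [mem_prod, mem_Icc, mem_union, Nat.cast_add, Nat.cast_one]
      constructor
      · rintro ⟨⟨h1, h2⟩, h3⟩
        rcases le_total p.1 (a + n * η) with h4 | h4
        · left; exact ⟨⟨h1, h4⟩, h3⟩
        · right; exact ⟨⟨h4, by linarith⟩, h3⟩
      · rintro (⟨⟨h1, h2⟩, h3⟩ | ⟨⟨h1, h2⟩, h3⟩)
        · exact ⟨⟨h1, by linarith⟩, h3⟩
        · exact ⟨⟨by linarith, by linarith⟩, h3⟩
    rw [h1]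
    apply setIntegral_union₀
    · refine measure_mono_null ?_ (TBD_vline (a + n * η))
      rintro p ⟨⟨h2, -⟩, ⟨h3, -⟩⟩
      exact le_antisymm h2.2 h3.1
    · exact (measurableSet_Icc.prod measurableSet_Icc).nullMeasurableSet
    · exact TBD_box_int hf hb
    · exact TBD_box_int hf hb

theorem TBD_grid2 {f : ℝ × ℝ → ℝ} (hf : ContinuousOn f TBD_U) {a a' b η : ℝ} (hη : 0 < η)
    (hb : 0 < b) (n : ℕ) :
    ∫ p in Icc a a' ×ˢ Icc b (b + n * η), f p =
      ∑ i ∈ Finset.range n, ∫ p in Icc a a' ×ˢ Icc (b + i * η) (b + i * η + η), f p := by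
  induction n with
  | zero =>
    rw [Finset.sum_range_zero]
    have h1 : volume (Icc a a' ×ˢ Icc b (b + (0 : ℕ) * η)) = 0 := by
      refine measure_mono_null ?_ (TBD_hline b)
      rintro p ⟨-, ⟨h1, h2⟩⟩
      show p.2 = b
      push_cast at h2
      linarith
    exact setIntegral_measure_zero _ h1
  | succ n ih =>
    rw [Finset.sum_range_succ, ← ih]
    have hn : (0 : ℝ) ≤ n * η := by positivity
    have h1 : Icc a a' ×ˢ Icc b (b + (n + 1 : ℕ) * η) =
        (Icc a a' ×ˢ Icc b (b + n * η)) ∪ (Icc a a' ×ˢ Icc (b + n * η) (b + n * η + η)) := by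
      ext p
      simp only [mem_prod, mem_Icc, mem_union, Nat.cast_add, Nat.cast_one]
      constructor
      · rintro ⟨h3, ⟨h1, h2⟩⟩
        rcases le_total p.2 (b + n * η) with h4 | h4
        · left; exact ⟨h3, ⟨h1, h4⟩⟩
        · right; exact ⟨h3, ⟨h4, by linarith⟩⟩
      · rintro (⟨h3, ⟨h1, h2⟩⟩ | ⟨h3, ⟨h1, h2⟩⟩)
        · exact ⟨h3, ⟨h1, by linarith⟩⟩
        · exact ⟨h3, ⟨by linarith, by linarith⟩⟩
    rw [h1]
    apply setIntegral_union₀
    · refine measure_mono_null ?_ (TBD_hline (b + n * η))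
      rintro p ⟨⟨-, h2⟩, ⟨-, h3⟩⟩
      exact le_antisymm h2.2 h3.1
    · exact (measurableSet_Icc.prod measurableSet_Icc).nullMeasurableSet
    · exact TBD_box_int hf hb
    · exact TBD_box_int hf (by linarith)

theorem TBD_grid {f : ℝ × ℝ → ℝ} (hf : ContinuousOn f TBD_U) {a η b η' : ℝ} (hη : 0 < η)
    (hη' : 0 < η') (hb : 0 < b) (n : ℕ) :
    ∫ p in Icc a (a + n * η) ×ˢ Icc b (b + n * η'), f p =
      ∑ i ∈ Finset.range n, ∑ j ∈ Finset.range n,
        ∫ p in Icc (a + i * η) (a + i * η + η) ×ˢ Icc (b + j * η') (b + j * η' + η'), f p := by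
  rw [TBD_grid1 hf hη hb n]
  exact Finset.sum_congr rfl fun i _ => TBD_grid2 hf hη' hb n

/-- the local inequality summed over the grid -/
theorem TBD_poin (hSQ : SQ_stmt) {w : ℝ × ℝ → ℝ} (hw : ContDiffOn ℝ ∞ w TBD_U) {a η b η' : ℝ}
    (hη : 0 < η) (hη' : 0 < η') (hb : 0 < b) (n : ℕ) (ε : ℝ)
    (hav : ∀ i < n, ∀ j < n, |TBD_av (a + i * η) η (b + j * η') η' w| ≤ ε) :
    ∫ p in Icc a (a + n * η) ×ˢ Icc b (b + n * η'), w p ^ 2 ≤
      (η ^ 2 + η' ^ 2) * (∫ p in Icc a (a + n * η) ×ˢ Icc b (b + n * η'), TBD_f w p) +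
        n * n * (η * η' * ε ^ 2) := by
  rw [TBD_grid (f := fun p => w p ^ 2) (hw.continuousOn.pow 2) hη hη' hb n,
    TBD_grid (TBD_fc hw) hη hη' hb n, Finset.mul_sum]
  have h1 : (n : ℝ) * n * (η * η' * ε ^ 2) =
      ∑ i ∈ Finset.range n, ∑ j ∈ Finset.range n, η * η' * ε ^ 2 := by
    simp only [Finset.sum_const, Finset.card_range, nsmul_eq_mul]
    ring
  rw [h1, ← Finset.sum_add_distrib]
  apply Finset.sum_le_sum
  intro i hi
  rw [Finset.mul_sum, ← Finset.sum_add_distrib]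
  apply Finset.sum_le_sum
  intro j hj
  have hbj : 0 < b + j * η' := by positivity
  rw [TBD_var hw.continuousOn hη hη' hbj]
  have h2 := hSQ w (a + i * η) (b + j * η') η η' hη hη' hbj hw
  have h3 : ∫ p in Icc (a + i * η) (a + i * η + η) ×ˢ Icc (b + j * η') (b + j * η' + η'),
      (px w p ^ 2 + py w p ^ 2) ≤
      ∫ p in Icc (a + i * η) (a + i * η + η) ×ˢ Icc (b + j * η') (b + j * η' + η'), TBD_f w p := by
    apply setIntegral_mono
    · exact TBD_box_int (((TBD_px hw).pow 2).add ((TBD_py hw).pow 2)) hbj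
    · exact TBD_box_int (TBD_fc hw) hbj
    · intro p
      show px w p ^ 2 + py w p ^ 2 ≤ w p ^ 2 + px w p ^ 2 + py w p ^ 2
      nlinarith [sq_nonneg (w p)]
  have h4 := hav i (Finset.mem_range.1 hi) j (Finset.mem_range.1 hj)
  have h5 : TBD_av (a + i * η) η (b + j * η') η' w ^ 2 ≤ ε ^ 2 := by
    rw [← sq_abs]
    exact pow_le_pow_left₀ (abs_nonneg _) h4 2
  have h6 : ∫ p in Icc (a + i * η) (a + i * η + η) ×ˢ Icc (b + j * η') (b + j * η' + η'),
      (w p - TBD_av (a + i * η) η (b + j * η') η' w) ^ 2 ≤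
      (η ^ 2 + η' ^ 2) *
        ∫ p in Icc (a + i * η) (a + i * η + η) ×ˢ Icc (b + j * η') (b + j * η' + η'), TBD_f w p :=
    h2.trans (mul_le_mul_of_nonneg_left h3 (by positivity))
  have h7 : η * η' * TBD_av (a + i * η) η (b + j * η') η' w ^ 2 ≤ η * η' * ε ^ 2 :=
    mul_le_mul_of_nonneg_left h5 (by positivity)
  linarith

/-- averages are bounded -/
theorem TBD_av_bd {h : ℝ × ℝ → ℝ} (hh : ContDiffOn ℝ ∞ h TBD_U) {a η b η' K : ℝ} (hη : 0 < η)
    (hη' : 0 < η') (hb : 0 < b) (hK : ∫ p in Icc a (a + η) ×ˢ Icc b (b + η'), h p ^ 2 ≤ K) :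
    |TBD_av a η b η' h| ≤ 1 + K / (η * η') := by
  have h1 := TBD_var hh.continuousOn hη hη' hb (a := a)
  have h2 : 0 ≤ ∫ p in Icc a (a + η) ×ˢ Icc b (b + η'), (h p - TBD_av a η b η' h) ^ 2 :=
    integral_nonneg fun p => sq_nonneg _
  have h3 : TBD_av a η b η' h ^ 2 ≤ K / (η * η') := by
    rw [le_div_iff₀ (by positivity)]
    nlinarith
  have h4 : |TBD_av a η b η' h| ^ 2 ≤ K / (η * η') := by rwa [sq_abs]
  nlinarith [sq_nonneg (|TBD_av a η b η' h| - 1), abs_nonneg (TBD_av a η b η' h)]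

theorem TBD_diff {h h' : ℝ × ℝ → ℝ} (hh : ContDiffOn ℝ ∞ h TBD_U) (hh' : ContDiffOn ℝ ∞ h' TBD_U)
    (M : ℝ)
    (hint : IntegrableOn (fun p : ℝ × ℝ => p.2 ^ 2 * TBD_f h p) Dm)
    (hint' : IntegrableOn (fun p : ℝ × ℝ => p.2 ^ 2 * TBD_f h' p) Dm)
    (hM : ∫ p in Dm, p.2 ^ 2 * TBD_f h p ≤ M) (hM' : ∫ p in Dm, p.2 ^ 2 * TBD_f h' p ≤ M) :
    IntegrableOn (fun p : ℝ × ℝ => p.2 ^ 2 * TBD_f (fun q => h q - h' q) p) Dm ∧
      ∫ p in Dm, p.2 ^ 2 * TBD_f (fun q => h q - h' q) p ≤ 4 * M := by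
  have hw : ContDiffOn ℝ ∞ (fun q => h q - h' q) TBD_U := hh.sub hh'
  have hb : ∀ p ∈ Dm, p.2 ^ 2 * TBD_f (fun q => h q - h' q) p ≤
      2 * (p.2 ^ 2 * TBD_f h p) + 2 * (p.2 ^ 2 * TBD_f h' p) := by
    intro p hp
    have hpU : p ∈ TBD_U := TBD_Dm_sub hp
    have hd : DifferentiableAt ℝ h p :=
      (hh.differentiableOn (by simp)).differentiableAt (TBD_U_open.mem_nhds hpU)
    have hd' : DifferentiableAt ℝ h' p :=
      (hh'.differentiableOn (by simp)).differentiableAt (TBD_U_open.mem_nhds hpU)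
    have h1 : px (fun q => h q - h' q) p = px h p - px h' p := by
      unfold px
      rw [fderiv_fun_sub hd hd']
      rfl
    have h2 : py (fun q => h q - h' q) p = py h p - py h' p := by
      unfold py
      rw [fderiv_fun_sub hd hd']
      rfl
    have h3 : TBD_f (fun q => h q - h' q) p ≤ 2 * TBD_f h p + 2 * TBD_f h' p := by
      unfold TBD_f
      rw [h1, h2]
      nlinarith [sq_nonneg (h p + h' p), sq_nonneg (px h p + px h' p),
        sq_nonneg (py h p + py h' p)]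
    have h4 := mul_le_mul_of_nonneg_left h3 (sq_nonneg p.2)
    linarith
  have hg : IntegrableOn (fun p : ℝ × ℝ => 2 * (p.2 ^ 2 * TBD_f h p) +
      2 * (p.2 ^ 2 * TBD_f h' p)) Dm := (hint.const_mul 2).add (hint'.const_mul 2)
  have hi : IntegrableOn (fun p : ℝ × ℝ => p.2 ^ 2 * TBD_f (fun q => h q - h' q) p) Dm := by
    refine Integrable.mono' hg ?_ ?_
    · exact (((continuous_snd.pow 2).continuousOn.mul (TBD_fc hw)).mono
        TBD_Dm_sub).aestronglyMeasurable TBD_Dm_meas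
    · rw [ae_restrict_iff' TBD_Dm_meas]
      filter_upwards with p hp
      rw [Real.norm_eq_abs, abs_of_nonneg (mul_nonneg (sq_nonneg _) (TBD_f_nonneg _ p))]
      exact hb p hp
  refine ⟨hi, (setIntegral_mono_on hi hg TBD_Dm_meas hb).trans ?_⟩
  rw [integral_add (hint.const_mul 2) (hint'.const_mul 2), integral_const_mul, integral_const_mul]
  linarith

theorem TBD (hSQ : SQ_stmt) (hRFG : RFG_stmt) : TBD_stmt := by
  intro M δ hM hδ
  have hs3 : (√3) ^ 2 = 3 := Real.sq_sqrt (by norm_num)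
  have hs30 : 0 < √3 := Real.sqrt_pos.2 (by norm_num)
  set b0 : ℝ := √3 / 2 with hb0
  have hb0p : 0 < b0 := by positivity
  set L : ℝ := 1 + 12 * M / δ with hL
  have hMd : 0 < 12 * M / δ := by positivity
  have hL1 : 1 ≤ L := by linarith
  have hL0 : 0 < L := by linarith
  obtain ⟨n, hn⟩ := exists_nat_gt ((1 + L ^ 2) * 81 * M / δ)
  have hn0 : (0 : ℝ) < n := lt_trans (by positivity) hn
  have hn1 : (1 : ℝ) ≤ n := by
    have h1 : 0 < n := by exact_mod_cast hn0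
    exact_mod_cast h1
  set η : ℝ := 1 / (2 * n) with hη
  set η' : ℝ := L / n with hη'
  have hηp : 0 < η := by positivity
  have hηp' : 0 < η' := by positivity
  have hnη : (n : ℝ) * η = 1 / 2 := by rw [hη]; field_simp
  have hnη' : (n : ℝ) * η' = L := by rw [hη']; field_simp
  set ε : ℝ := √(δ / (3 * (1 + L))) with hε
  have hεp : 0 < ε := Real.sqrt_pos.2 (by positivity)
  have hε2 : ε ^ 2 = δ / (3 * (1 + L)) := Real.sq_sqrt (by positivity)
  have hboxS : ∀ i < n, ∀ j : ℕ, Icc (0 + (i : ℝ) * η) (0 + i * η + η) ×ˢ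
      Icc (b0 + j * η') (b0 + j * η' + η') ⊆ TBD_S := by
    rintro i hi j p ⟨⟨h1, h2⟩, ⟨h3, h4⟩⟩
    have h5 : (0 : ℝ) ≤ i * η := by positivity
    have h6 : (0 : ℝ) ≤ j * η' := by positivity
    have h7 : ((i : ℝ) + 1) * η ≤ n * η := by
      apply mul_le_mul_of_nonneg_right _ hηp.le
      exact_mod_cast hi
    refine ⟨by linarith, by linarith, by linarith⟩
  refine ⟨n * n, 1 + (20 / 3 * M) / (η * η'), ε, fun k h =>
    TBD_av (0 + ((finProdFinEquiv.symm k).1 : ℕ) * η) η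
      (b0 + ((finProdFinEquiv.symm k).2 : ℕ) * η') η' h, hεp, ?_, ?_⟩
  · intro h hh hinv hint hle k
    obtain ⟨hiS, hleS⟩ := TBD_S_int hRFG hh hinv hint M hle
    have hbj : 0 < b0 + (((finProdFinEquiv.symm k).2 : ℕ) : ℝ) * η' := by positivity
    apply TBD_av_bd hh hηp hηp' hbj
    have h1 := hboxS _ (finProdFinEquiv.symm k).1.2 (finProdFinEquiv.symm k).2
    refine le_trans ?_ hleS
    refine le_trans (setIntegral_mono (TBD_box_int (hh.continuousOn.pow 2) hbj)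
      (hiS.mono_set h1) (g := TBD_f h) ?_) ?_
    · intro p
      show h p ^ 2 ≤ h p ^ 2 + px h p ^ 2 + py h p ^ 2
      nlinarith [sq_nonneg (px h p), sq_nonneg (py h p)]
    · exact setIntegral_mono_set hiS (ae_of_all _ fun p => TBD_f_nonneg h p)
        (LE.le.eventuallyLE h1)
  · intro h h' hh hh' hinv hinv' hint hint' hle hle' hφ
    set w : ℝ × ℝ → ℝ := fun q => h q - h' q with hw
    have hwc : ContDiffOn ℝ ∞ w TBD_U := hh.sub hh'
    have hwinv : ∀ x y : ℝ, 0 < y → w (x / (x ^ 2 + y ^ 2), y / (x ^ 2 + y ^ 2)) = -w (x, y) := by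
      intro x y hy
      simp only [hw]
      rw [hinv x y hy, hinv' x y hy]
      ring
    obtain ⟨hwint, hwle⟩ := TBD_diff hh hh' M hint hint' hle hle'
    obtain ⟨hiS, hleS⟩ := TBD_S_int hRFG hwc hwinv hwint (4 * M) hwle
    obtain ⟨hiD, -⟩ := TBD_Dm_int hwc hwint
    -- averages
    have hav : ∀ i < n, ∀ j < n, |TBD_av (0 + i * η) η (b0 + j * η') η' w| ≤ ε := by
      intro i hi j hj
      have h1 := hφ (finProdFinEquiv (⟨i, hi⟩, ⟨j, hj⟩))
      simp only [Equiv.symm_apply_apply] at h1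
      have hbj : 0 < b0 + (j : ℝ) * η' := by positivity
      have h2 : TBD_av (0 + i * η) η (b0 + j * η') η' w =
          TBD_av (0 + i * η) η (b0 + j * η') η' h - TBD_av (0 + i * η) η (b0 + j * η') η' h' := by
        unfold TBD_av
        rw [← mul_sub, ← integral_sub (TBD_box_int hh.continuousOn hbj)
          (TBD_box_int hh'.continuousOn hbj)]
      rw [h2]
      exact h1
    have hR := TBD_poin hSQ hwc hηp hηp' hb0p n ε hav
    set R : Set (ℝ × ℝ) := Icc 0 (0 + (n : ℝ) * η) ×ˢ Icc b0 (b0 + n * η') with hRdef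
    set T : Set (ℝ × ℝ) := Dm ∩ {p | b0 + L < p.2} with hT
    have hTm : MeasurableSet T :=
      TBD_Dm_meas.inter (measurableSet_lt measurable_const measurable_snd)
    have hRS : R ⊆ TBD_S := by
      rintro p ⟨⟨h1, h2⟩, ⟨h3, h4⟩⟩
      exact ⟨h1, by linarith, h3⟩
    have hRf : ∫ p in R, TBD_f w p ≤ 20 / 3 * (4 * M) :=
      (setIntegral_mono_set hiS (ae_of_all _ fun p => TBD_f_nonneg w p)
        (LE.le.eventuallyLE hRS)).trans hleS
    have hsub : Dm ⊆ R ∪ T := by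
      intro p hp
      rcases le_or_gt p.2 (b0 + L) with h1 | h1
      · left
        have h2 := TBD_Dm_y hp
        have h3 : b0 ≤ p.2 := by
          by_contra h4
          push Not at h4
          have h5 : 0 < p.2 := hp.2.2.1
          have h6 : p.2 ^ 2 < b0 ^ 2 := by nlinarith
          rw [hb0] at h6
          nlinarith
        exact ⟨⟨hp.1.le, by linarith [hp.2.1]⟩, ⟨h3, by linarith⟩⟩
      · right
        exact ⟨hp, h1⟩
    have hw2f : ∀ p, w p ^ 2 ≤ TBD_f w p := by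
      intro p
      show w p ^ 2 ≤ w p ^ 2 + px w p ^ 2 + py w p ^ 2
      nlinarith [sq_nonneg (px w p), sq_nonneg (py w p)]
    have hiw : IntegrableOn (fun p => w p ^ 2) Dm := by
      refine Integrable.mono' hiD ?_ ?_
      · exact ((hwc.continuousOn.pow 2).mono TBD_Dm_sub).aestronglyMeasurable TBD_Dm_meas
      · filter_upwards with p
        rw [Real.norm_eq_abs, abs_of_nonneg (sq_nonneg _)]
        exact hw2f p
    have hiR : IntegrableOn (fun p => w p ^ 2) R := TBD_box_int (hwc.continuousOn.pow 2) hb0p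
    have hiT : IntegrableOn (fun p => w p ^ 2) T := hiw.mono_set inter_subset_left
    have hdisj : Disjoint R T := by
      rw [Set.disjoint_left]
      rintro p ⟨-, ⟨-, h1⟩⟩ ⟨-, h2⟩
      have h3 : b0 + L < p.2 := h2
      linarith
    have h1 : ∫ p in Dm, w p ^ 2 ≤ (∫ p in R, w p ^ 2) + ∫ p in T, w p ^ 2 := by
      rw [← setIntegral_union hdisj hTm hiR hiT]
      exact setIntegral_mono_set (hiR.union hiT) (ae_of_all _ fun p => sq_nonneg _)
        (LE.le.eventuallyLE hsub)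
    have hY : 0 < (b0 + L) ^ 2 := by positivity
    have h2 : ∫ p in T, w p ^ 2 ≤ 1 / (b0 + L) ^ 2 * (4 * M) := by
      have h3 : ∫ p in T, w p ^ 2 ≤ ∫ p in T, 1 / (b0 + L) ^ 2 * (p.2 ^ 2 * TBD_f w p) := by
        apply setIntegral_mono_on hiT ((hwint.mono_set inter_subset_left).const_mul _) hTm
        intro p hp
        have h4 : b0 + L < p.2 := hp.2
        have h5 : (b0 + L) ^ 2 ≤ p.2 ^ 2 := by
          apply pow_le_pow_left₀ (by positivity) h4.le
        rw [div_mul_eq_mul_div, le_div_iff₀ hY, one_mul]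
        calc w p ^ 2 * (b0 + L) ^ 2 ≤ TBD_f w p * (b0 + L) ^ 2 :=
              mul_le_mul_of_nonneg_right (hw2f p) hY.le
          _ ≤ TBD_f w p * p.2 ^ 2 := mul_le_mul_of_nonneg_left h5 (TBD_f_nonneg w p)
          _ = p.2 ^ 2 * TBD_f w p := mul_comm _ _
      rw [integral_const_mul] at h3
      refine h3.trans (mul_le_mul_of_nonneg_left ?_ (by positivity))
      refine le_trans ?_ hwle
      exact setIntegral_mono_set hwint (ae_of_all _ fun p => mul_nonneg (sq_nonneg _)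
        (TBD_f_nonneg w p)) (LE.le.eventuallyLE inter_subset_left)
    have h3 : 1 / (b0 + L) ^ 2 * (4 * M) ≤ δ / 3 := by
      rw [div_mul_eq_mul_div, one_mul, div_le_iff₀ hY]
      have h4 : L ≤ (b0 + L) ^ 2 := by nlinarith
      have h5 : δ * L ≥ 12 * M := by
        rw [hL, mul_add, mul_div_cancel₀ _ hδ.ne']
        linarith
      nlinarith
    have h4 : (η ^ 2 + η' ^ 2) * (20 / 3 * (4 * M)) ≤ δ / 3 := by
      have h5 : η ^ 2 + η' ^ 2 = (1 / 4 + L ^ 2) / n ^ 2 := by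
        rw [hη, hη']
        field_simp
        ring
      rw [h5, div_mul_eq_mul_div, div_le_iff₀ (by positivity)]
      have h6 : (1 + L ^ 2) * 81 * M < δ * n := by
        rw [div_lt_iff₀ hδ] at hn
        linarith
      have h7 : δ * n ≤ δ * n ^ 2 := by
        apply mul_le_mul_of_nonneg_left _ hδ.le
        nlinarith
      nlinarith [mul_pos (show (0 : ℝ) < 1 + L ^ 2 by positivity) hM]
    have h5 : (n : ℝ) * n * (η * η' * ε ^ 2) ≤ δ / 3 := by
      have h6 : (n : ℝ) * n * (η * η' * ε ^ 2) = (n * η) * (n * η') * ε ^ 2 := by ring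
      rw [h6, hnη, hnη', hε2, mul_div_assoc', div_le_iff₀ (by positivity)]
      nlinarith
    have h6 : (η ^ 2 + η' ^ 2) * (∫ p in R, TBD_f w p) ≤ δ / 3 :=
      (mul_le_mul_of_nonneg_left hRf (by positivity)).trans h4
    show ∫ p in Dm, w p ^ 2 ≤ δ
    linarith

end SF
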